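import Pool.Agent.T9h44.NK.SpecA
import Pool.Agent.T9h44.NK.SpecB

set_option autoImplicit false

open Set
open scoped RealInnerProductSpace

namespace Pool.Agent.T9h56.NK

open Pool.Agent.T9h98.DC Pool.Agent.T9h44.NK

/-- unit vectors with equal nonnegative inner products are linearly independent -/
lemma li_equal {n m : ℕ} (v : Fin (m + 1) → E n) (c : ℝ) (hc : 0 ≤ c) (hc1 : c < 1)
    (h1 : ∀ i, ‖v i‖ = 1) (h2 : ∀ i j, i ≠ j → ⟪v i, v j⟫ = c) : LinearIndependent ℝ v := by
  rw [Fintype.linearIndependent_iff]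
  intro g hg
  have key : ∀ j, (1 - c) * g j + c * ∑ i, g i = 0 := by
    intro j
    have h3 : ⟪∑ i, g i • v i, v j⟫ = (0 : ℝ) := by rw [hg, inner_zero_left]
    rw [sum_inner] at h3
    have h4 : ∀ i, ⟪g i • v i, v j⟫ = c * g i + (if i = j then (1 - c) * g i else 0) := by
      intro i
      rw [real_inner_smul_left]
      by_cases hij : i = j
      · subst hij
        rw [if_pos rfl, real_inner_self_eq_norm_sq, h1]
        ring
      · rw [if_neg hij, h2 i j hij]
        ring
    rw [Finset.sum_congr rfl fun i _ => h4 i, Finset.sum_add_distrib,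
      Finset.sum_ite_eq' Finset.univ j, if_pos (Finset.mem_univ j), ← Finset.mul_sum] at h3
    linarith
  have hS : ∑ i, g i = 0 := by
    have h5 : ∑ j, ((1 - c) * g j + c * ∑ i, g i) = 0 := Finset.sum_eq_zero fun j _ => key j
    rw [Finset.sum_add_distrib, ← Finset.mul_sum, Finset.sum_const, Finset.card_univ,
      Fintype.card_fin, nsmul_eq_mul] at h5
    have h6 : (1 - c + ((m + 1 : ℕ) : ℝ) * c) * ∑ i, g i = 0 := by linarith
    rcases mul_eq_zero.1 h6 with h7 | h7
    · have h8 : 0 ≤ ((m + 1 : ℕ) : ℝ) * c := by positivity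
      linarith
    · exact h7
  intro j
  have h9 := key j
  rw [hS, mul_zero, add_zero] at h9
  rcases mul_eq_zero.1 h9 with h | h
  · linarith
  · exact h

/-- the simplex -/
lemma regS_neg (hF : S_FACES) (hSimp : S_SIMP) {d : ℕ} {P : Set (E (d + 1))} {c : ℝ}
    (hP : IsPolytope P) (hUV : UV P) (hEC : EC c P) (hR : RegS P) : c < 0 := by
  classical
  obtain ⟨v, s, hs, hd, hPv⟩ := hR
  obtain ⟨-, -, -, hext, -⟩ := hF (d + 1) P hP.1
  obtain ⟨hadj, v', hinj, hvx, -, -⟩ := hSimp (d + 1) P (Finset.univ.image v) hP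
    (fun w hw => by
      have h1 := (hext w).1 hw
      rw [hPv] at h1
      obtain ⟨i, hi⟩ := extremePoints_convexHull_subset h1
      exact Finset.mem_image.2 ⟨i, Finset.mem_univ i, hi⟩)
    (Finset.card_image_le.trans (by rw [Finset.card_univ, Fintype.card_fin]))
  have h1 : ∀ i, ‖v' i‖ = 1 := fun i => hUV _ (hvx i)
  have h2 : ∀ i j, i ≠ j → ⟪v' i, v' j⟫ = c := fun i j hij =>
    hEC _ _ (hadj _ _ (hvx i) (hvx j) fun h => hij (hinj h))
  by_contra hc
  push Not at hc
  have hne : v' 0 ≠ v' 1 := fun h => by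
    have := hinj h
    exact absurd this (by simp [Fin.ext_iff])
  have hc1 : c < 1 := by
    have h3 := h2 0 1 fun h => hne (congrArg v' h)
    have h4 : ⟪v' 0, v' 1⟫ ≤ (1 : ℝ) := by
      have := real_inner_le_norm (v' 0) (v' 1)
      rwa [h1, h1, one_mul] at this
    rcases h4.lt_or_eq with h5 | h5
    · linarith
    · exact absurd ((inner_eq_one_iff_of_norm_eq_one (h1 0) (h1 1)).1 h5) hne
  have h5 := (li_equal v' c hc hc1 h1 h2).fintype_card_le_finrank
  rw [Fintype.card_fin, finrank_euclideanSpace_fin] at h5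
  omega

/-- the cube -/
lemma regC_eq (hF : S_FACES) {d : ℕ} {P : Set (E (d + 1))} {c : ℝ}
    (hP : IsPolytope P) (hUV : UV P) (hEC : EC c P) (hR : RegC P) : c = 1 - 2 / (d + 1) := by
  classical
  obtain ⟨c0, r, b, hr, hPb⟩ := hR
  obtain ⟨-, -, -, -, -, -, -, -, hends, -⟩ := hF (d + 1) P hP.1
  have hmem : ∀ x, x ∈ P ↔ ∀ i, |⟪b i, x⟫ - ⟪b i, c0⟫| ≤ r := by
    intro x
    rw [hPb]
    show (∀ i, |⟪x - c0, b i⟫| ≤ r) ↔ _
    refine forall_congr' fun i => ?_
    rw [inner_sub_left, real_inner_comm, real_inner_comm c0]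
  have hb : ∀ i j, ⟪b i, b j⟫ = if i = j then (1 : ℝ) else 0 :=
    orthonormal_iff_ite.1 b.orthonormal
  set V : E (d + 1) := c0 + r • ∑ i, b i with hV
  have hVb : ∀ i, ⟪b i, V⟫ = ⟪b i, c0⟫ + r := by
    intro i
    rw [hV, inner_add_right, real_inner_smul_right, inner_sum]
    simp only [hb]
    rw [Finset.sum_ite_eq Finset.univ i, if_pos (Finset.mem_univ i), mul_one]
  have hext : ∀ x y : E (d + 1), (∀ i, ⟪b i, x⟫ = ⟪b i, y⟫) → x = y := by
    intro x y h
    apply b.repr.injective
    ext i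
    rw [b.repr_apply_apply, b.repr_apply_apply]
    exact h i
  have hVP : V ∈ P := by
    rw [hmem]
    intro i
    rw [hVb, add_sub_cancel_left, abs_of_pos hr]
  have hadj : ∀ j, Adj P V (V - (2 * r) • b j) := by
    intro j
    have hbj : b j ≠ 0 := b.orthonormal.ne_zero j
    refine ⟨fun h => ?_, ⟨V, left_mem_segment ℝ _ _⟩, fun _ => ?_⟩
    · have h1 : (2 * r) • b j = 0 := by
        have := sub_eq_self.1 h.symm
        exact this
      rcases smul_eq_zero.1 h1 with h2 | h2
      · linarith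
      · exact hbj h2
    · refine ⟨∑ i ∈ Finset.univ.erase j, innerSL ℝ (b i), ?_⟩
      have hl : ∀ x, (∑ i ∈ Finset.univ.erase j, innerSL ℝ (b i)) x =
          ∑ i ∈ Finset.univ.erase j, ⟪b i, x⟫ := by
        intro x
        rw [ContinuousLinearMap.sum_apply]
        rfl
      have hle : ∀ y ∈ P, ∀ i ∈ Finset.univ.erase j, ⟪b i, y⟫ ≤ ⟪b i, V⟫ := by
        intro y hy i _
        rw [hVb]
        have := (abs_le.1 ((hmem y).1 hy i)).2
        linarith
      rw [segment_eq_image']
      ext x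
      constructor
      · rintro ⟨θ, ⟨hθ0, hθ1⟩, rfl⟩
        have hx : ∀ i, ⟪b i, V + θ • (V - (2 * r) • b j - V)⟫ =
            ⟪b i, V⟫ - θ * (2 * r) * (if i = j then 1 else 0) := by
          intro i
          rw [inner_add_right, real_inner_smul_right, inner_sub_right, inner_sub_right,
            real_inner_smul_right, hb]
          ring
        refine ⟨?_, fun y hy => ?_⟩
        · rw [hmem]
          intro i
          show |⟪b i, V + θ • (V - (2 * r) • b j - V)⟫ - ⟪b i, c0⟫| ≤ r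
          rw [hx, hVb, abs_le]
          split_ifs
          · constructor <;> nlinarith
          · constructor <;> linarith
        · rw [hl, hl]
          refine Finset.sum_le_sum fun i hi => ?_
          show ⟪b i, y⟫ ≤ ⟪b i, V + θ • (V - (2 * r) • b j - V)⟫
          rw [hx, if_neg (Finset.ne_of_mem_erase hi), mul_zero, sub_zero]
          exact hle y hy i hi
      · rintro ⟨hxP, hmax⟩
        have h1 := hmax V hVP
        rw [hl, hl] at h1
        have h2 : ∑ i ∈ Finset.univ.erase j, ⟪b i, x⟫ = ∑ i ∈ Finset.univ.erase j, ⟪b i, V⟫ :=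
          le_antisymm (Finset.sum_le_sum (hle x hxP)) h1
        have h3 := (Finset.sum_eq_sum_iff_of_le (hle x hxP)).1 h2
        have h4 := abs_le.1 ((hmem x).1 hxP j)
        have h5 := hVb j
        refine ⟨(⟪b j, V⟫ - ⟪b j, x⟫) / (2 * r), ⟨by
          apply div_nonneg _ (by linarith)
          linarith [h4.2], by
          rw [div_le_one (by linarith)]
          linarith [h4.1]⟩, ?_⟩
        apply hext
        intro i
        show ⟪b i, V + ((⟪b j, V⟫ - ⟪b j, x⟫) / (2 * r)) • (V - (2 * r) • b j - V)⟫ = ⟪b i, x⟫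
        rw [inner_add_right, real_inner_smul_right, inner_sub_right, inner_sub_right,
          real_inner_smul_right, hb]
        by_cases hij : i = j
        · subst hij
          rw [if_pos rfl]
          field_simp
          ring
        · rw [if_neg hij, h3 i (Finset.mem_erase.2 ⟨hij, Finset.mem_univ i⟩)]
          ring
  have hVn : ‖V‖ = 1 := hUV V (hends _ _ (hadj 0)).1
  have hVr : ∀ j, ⟪b j, V⟫ = r := by
    intro j
    have h1 : ‖V - (2 * r) • b j‖ = 1 := hUV _ (hends _ _ (hadj j)).2.1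
    have h2 : ‖V - (2 * r) • b j‖ ^ 2 = ‖V‖ ^ 2 - 2 * ⟪V, (2 * r) • b j⟫ + ‖(2 * r) • b j‖ ^ 2 :=
      norm_sub_sq_real _ _
    have h3 : ‖(2 * r) • b j‖ = 2 * r := by
      rw [norm_smul, b.orthonormal.1 j, mul_one, Real.norm_of_nonneg (by linarith)]
    rw [h1, hVn, h3, real_inner_smul_right, real_inner_comm] at h2
    have h4 : r * (⟪b j, V⟫ - r) = 0 := by linarith
    rcases mul_eq_zero.1 h4 with h5 | h5
    · linarith
    · linarith
  have hr2 : ((d : ℝ) + 1) * r ^ 2 = 1 := by
    have h1 := b.sum_sq_inner_right V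
    rw [hVn, one_pow] at h1
    have h2 : ∑ i : Fin (d + 1), ⟪b i, V⟫ ^ 2 = ((d : ℝ) + 1) * r ^ 2 := by
      simp only [hVr]
      rw [Finset.sum_const, Finset.card_univ, Fintype.card_fin, nsmul_eq_mul]
      push_cast
      ring
    rw [← h2]
    exact h1
  have h1 := hEC _ _ (hadj 0)
  rw [inner_sub_right, real_inner_self_eq_norm_sq, hVn, real_inner_smul_right, real_inner_comm,
    hVr 0] at h1
  have hd0 : (0 : ℝ) < d + 1 := by positivity
  have h2 : r ^ 2 = 1 / ((d : ℝ) + 1) := by
    rw [eq_div_iff hd0.ne']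
    linarith
  rw [← h1]
  have : 2 / ((d : ℝ) + 1) = 2 * r ^ 2 := by rw [h2]; ring
  rw [this]
  ring

/-- Piece RSC -/
theorem rsc : S_FACES → S_SIMP → S_RSC := fun hF hSimp _ _ _ hP hUV hEC =>
  ⟨regS_neg hF hSimp hP hUV hEC, regC_eq hF hP hUV hEC⟩

end Pool.Agent.T9h56.NK
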