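import Pool.Agent.T9h44.NK.SpecA

set_option autoImplicit false

namespace Pool.Agent.T9h56.NK

open Set Pool.Agent.T9h98.DC Pool.Agent.T9h44.NK

variable {d : ℕ} {P : Set (E d)}

lemma fp_compact (h : FP P) : IsCompact P := by
  obtain ⟨s, rfl⟩ := h
  exact s.finite_toSet.isCompact_convexHull (𝕜 := ℝ)

lemma fp_convex (h : FP P) : Convex ℝ P := by
  obtain ⟨s, rfl⟩ := h
  exact convex_convexHull ℝ _

/-- an extreme point of a polytope is a vertex -/
theorem vx_of_ext (hP : FP P) {v : E d} (hv : v ∈ P.extremePoints ℝ) : Vx P v := by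
  obtain ⟨s, rfl⟩ := hP
  have hvs : v ∈ (s : Set (E d)) := extremePoints_convexHull_subset hv
  have hconv : Convex ℝ (convexHull ℝ (s : Set (E d)) \ {v}) :=
    ((convex_convexHull ℝ _).mem_extremePoints_iff_convex_sdiff.1 hv).2
  have hvK : v ∉ convexHull ℝ ((s : Set (E d)) \ {v}) := by
    intro h
    have h1 : convexHull ℝ ((s : Set (E d)) \ {v}) ⊆ convexHull ℝ (s : Set (E d)) \ {v} :=
      convexHull_min (fun x hx => ⟨subset_convexHull ℝ _ hx.1, hx.2⟩) hconv
    exact (h1 h).2 rfl
  have hKc : IsCompact (convexHull ℝ ((s : Set (E d)) \ {v})) :=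
    (s.finite_toSet.subset diff_subset).isCompact_convexHull (𝕜 := ℝ)
  obtain ⟨l, u, h1, h2⟩ := geometric_hahn_banach_closed_point (convex_convexHull ℝ _)
    hKc.isClosed hvK
  have hC : Convex ℝ {x : E d | x = v ∨ l x < l v} := by
    intro x hx y hy a b ha hb hab
    have hx' : x = v ∨ l x < l v := hx
    have hy' : y = v ∨ l y < l v := hy
    show a • x + b • y = v ∨ l (a • x + b • y) < l v
    have hlx : l x ≤ l v := by
      rcases hx' with h | h
      · rw [h]
      · exact h.le
    have hly : l y ≤ l v := by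
      rcases hy' with h | h
      · rw [h]
      · exact h.le
    rw [map_add, map_smul, map_smul, smul_eq_mul, smul_eq_mul]
    rcases hx' with rfl | hx'
    · rcases hy' with rfl | hy'
      · left
        rw [← add_smul, hab, one_smul]
      · rcases hb.eq_or_lt with rfl | hb'
        · left
          have : a = 1 := by linarith
          rw [this]
          simp
        · right
          have := mul_lt_mul_of_pos_left hy' hb'
          have e : a * l x + b * l x = l x := by rw [← add_mul, hab, one_mul]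
          linarith
    · rcases ha.eq_or_lt with rfl | ha'
      · have : b = 1 := by linarith
        rw [this]
        simpa using hy'
      · right
        have h3 := mul_lt_mul_of_pos_left hx' ha'
        have h4 := mul_le_mul_of_nonneg_left hly hb
        have e : a * l v + b * l v = l v := by rw [← add_mul, hab, one_mul]
        linarith
  have hPC : convexHull ℝ (s : Set (E d)) ⊆ {x : E d | x = v ∨ l x < l v} := by
    refine convexHull_min (fun x hx => ?_) hC
    by_cases hxv : x = v
    · exact Or.inl hxv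
    · exact Or.inr ((h1 x (subset_convexHull ℝ _ ⟨hx, hxv⟩)).trans h2)
  refine ⟨singleton_nonempty v, fun _ => ⟨l, ?_⟩⟩
  ext x
  constructor
  · intro hx
    have hx' : x = v := hx
    subst hx'
    refine ⟨subset_convexHull ℝ _ hvs, fun y hy => ?_⟩
    rcases hPC hy with h | h
    · rw [h]
    · exact h.le
  · rintro ⟨hx, hmax⟩
    rcases hPC hx with h | h
    · exact h
    · exact absurd (hmax v (subset_convexHull ℝ _ hvs)) (not_le.2 h)

theorem ext_of_vx {v : E d} (hv : Vx P v) : v ∈ P.extremePoints ℝ :=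
  isExtreme_singleton.1 hv.2.isExtreme

/-- (iii), second part -/
theorem vx_iff (hP : FP P) (v : E d) : Vx P v ↔ v ∈ P.extremePoints ℝ :=
  ⟨ext_of_vx, vx_of_ext hP⟩

/-- (iii), first part -/
theorem vx_finite (hP : FP P) : {v | Vx P v}.Finite := by
  obtain ⟨s, rfl⟩ := hP
  exact s.finite_toSet.subset fun v hv => extremePoints_convexHull_subset (ext_of_vx hv)

/-- (iv) -/
theorem self_face (hP : FP P) (hne : P.Nonempty) : IsFace P P ∧ ∃ v, Vx P v := by
  refine ⟨⟨hne, IsExposed.refl P⟩, ?_⟩
  obtain ⟨v, hv⟩ := (fp_compact hP).extremePoints_nonempty hne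
  exact ⟨v, vx_of_ext hP hv⟩

/-- (i) -/
theorem face_hull (hP : FP P) (F : Set (E d)) (hF : IsFace P F) :
    FP F ∧ F = convexHull ℝ {v | Vx P v ∧ v ∈ F} := by
  obtain ⟨hne, hex⟩ := hF
  have hFc : IsCompact F := hex.isCompact (fp_compact hP)
  have hFv : Convex ℝ F := hex.convex (fp_convex hP)
  have hfin : {v | Vx P v ∧ v ∈ F}.Finite := (vx_finite hP).subset fun v hv => hv.1
  have h1 := closure_convexHull_extremePoints hFc hFv
  have h2 : F.extremePoints ℝ ⊆ {v | Vx P v ∧ v ∈ F} := fun x hx =>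
    ⟨vx_of_ext hP (hex.isExtreme.extremePoints_subset_extremePoints hx), extremePoints_subset hx⟩
  have h3 : F = convexHull ℝ {v | Vx P v ∧ v ∈ F} := by
    apply subset_antisymm
    · conv_lhs => rw [← h1]
      exact closure_minimal (convexHull_mono h2) (hfin.isClosed_convexHull (𝕜 := ℝ))
    · exact convexHull_min (fun v hv => hv.2) hFv
  refine ⟨⟨hfin.toFinset, ?_⟩, h3⟩
  rw [hfin.coe_toFinset]
  exact h3

/-- (v) -/
theorem dm_lt (F G : Set (E d)) (hF : IsFace P F) (hG : IsFace P G) (hFG : F ⊆ G) (hne : F ≠ G) :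
    dm F < dm G := by
  obtain ⟨l, hl⟩ := hF.2 hF.1
  obtain ⟨x, hx⟩ := hF.1
  have hGP : G ⊆ P := hG.2.subset
  obtain ⟨y, hy, hyF⟩ : ∃ y ∈ G, y ∉ F := by
    by_contra hcon
    push Not at hcon
    exact hne (subset_antisymm hFG hcon)
  have hxl : ∀ z ∈ P, l z ≤ l x := by
    have h1 := hx
    rw [hl] at h1
    exact h1.2
  have hlt : l y < l x := by
    by_contra hcon
    push Not at hcon
    apply hyF
    rw [hl]
    exact ⟨hGP hy, fun z hz => (hxl z hz).trans hcon⟩
  have hsub : vectorSpan ℝ F ≤ vectorSpan ℝ G := vectorSpan_mono ℝ hFG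
  have hker : vectorSpan ℝ F ≤ LinearMap.ker (l : E d →ₗ[ℝ] ℝ) := by
    rw [vectorSpan, Submodule.span_le]
    rintro _ ⟨a, ha, b, hb, rfl⟩
    rw [hl] at ha hb
    have h1 := ha.2 b hb.1
    have h2 := hb.2 a ha.1
    show l (a - b) = 0
    rw [map_sub]
    linarith
  apply Submodule.finrank_lt_finrank_of_lt
  refine lt_of_le_of_ne hsub fun h => ?_
  have h1 : y -ᵥ x ∈ vectorSpan ℝ G := vsub_mem_vectorSpan ℝ hy (hFG hx)
  rw [← h] at h1
  have h2 : l (y - x) = 0 := hker h1
  rw [map_sub] at h2
  linarith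

end Pool.Agent.T9h56.NK
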