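import Pool.Agent.T9h44.NK.SpecA
import Pool.Agent.T9h44.NK.SpecB

set_option autoImplicit false

open Set
open scoped RealInnerProductSpace

namespace Pool.Agent.T9h56.NK

open Pool.Agent.T9h98.DC Pool.Agent.T9h44.NK

/-- the algebra of the quadrilateral -/
lemma quad {d : ℕ} (v y z t : E d) (c α β : ℝ) (hc : c < 1) (hv : ‖v‖ = 1) (hy : ‖y‖ = 1)
    (hz : ‖z‖ = 1) (ht : ‖t‖ = 1) (hvy : ⟪v, y⟫ = c) (hvz : ⟪v, z⟫ = c) (hty : ⟪y, t⟫ = c)
    (htz : ⟪z, t⟫ = c) (hyz : y ≠ z) (htv : t ≠ v)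
    (h : t - v = α • (y - v) + β • (z - v)) : ⟪y, z⟫ = 2 * c - 1 := by
  have e : t = v + (α • (y - v) + β • (z - v)) := by
    rw [← h]
    abel
  have ivv : ⟪v, v⟫ = (1 : ℝ) := by rw [real_inner_self_eq_norm_sq, hv, one_pow]
  have iyy : ⟪y, y⟫ = (1 : ℝ) := by rw [real_inner_self_eq_norm_sq, hy, one_pow]
  have izz : ⟪z, z⟫ = (1 : ℝ) := by rw [real_inner_self_eq_norm_sq, hz, one_pow]
  have itt : ⟪t, t⟫ = (1 : ℝ) := by rw [real_inner_self_eq_norm_sq, ht, one_pow]
  have iyv : ⟪y, v⟫ = c := by rw [real_inner_comm]; exact hvy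
  have izv : ⟪z, v⟫ = c := by rw [real_inner_comm]; exact hvz
  have izy : ⟪z, y⟫ = ⟪y, z⟫ := real_inner_comm _ _
  have exp : ∀ x : E d, ⟪x, t⟫ = ⟪x, v⟫ + (α * (⟪x, y⟫ - ⟪x, v⟫) + β * (⟪x, z⟫ - ⟪x, v⟫)) := by
    intro x
    conv_lhs => rw [e]
    rw [inner_add_right, inner_add_right, inner_smul_right, inner_smul_right, inner_sub_right,
      inner_sub_right]
  have exp' : ⟪t, t⟫ = ⟪v, t⟫ + (α * (⟪y, t⟫ - ⟪v, t⟫) + β * (⟪z, t⟫ - ⟪v, t⟫)) := by
    have e2 := congrArg (fun u : E d => (⟪u, t⟫ : ℝ)) e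
    simp only [inner_add_left, real_inner_smul_left, inner_sub_left] at e2
    exact e2
  have h1 := exp y
  have h2 := exp z
  have h3 := exp v
  rw [hty, iyv, iyy] at h1
  rw [htz, izv, izy, izz] at h2
  rw [ivv, hvy, hvz] at h3
  rw [itt, hty, htz, h3] at exp'
  have hk : 0 < 1 - c := by linarith
  have hS : (α + β) * (α + β - 2) = 0 := by
    have : (1 - c) * ((α + β) * (α + β - 2)) = 0 := by linear_combination -exp'
    rcases mul_eq_zero.1 this with h4 | h4
    · exact absurd h4 hk.ne'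
    · exact h4
  rcases mul_eq_zero.1 hS with h4 | h4
  · exfalso
    have hβ : β = -α := by linarith
    subst hβ
    have h5 : α * (1 - ⟪y, z⟫) = 0 := by linear_combination -h1
    rcases mul_eq_zero.1 h5 with h6 | h6
    · apply htv
      rw [e, h6]
      simp
    · have h7 : ⟪y, z⟫ = (1 : ℝ) := by linarith
      exact hyz ((inner_eq_one_iff_of_norm_eq_one hy hz).1 h7)
  · have hβ : β = 2 - α := by linarith
    subst hβ
    linear_combination (-1 / 2 : ℝ) * h1 + (-1 / 2 : ℝ) * h2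

/-- the other neighbour in a 2-face -/
lemma other (hTwo : S_TWO) {d : ℕ} {P T : Set (E (d + 1))} (hP : IsPolytope P) (hT : IsFace P T)
    (hdT : dm T = 2) (p q : E (d + 1)) (hvp : Vx P p) (hpq : Adj P p q) (hp : p ∈ T) (hq : q ∈ T) :
    ∃ r, r ≠ q ∧ Adj P p r ∧ r ∈ T ∧ (∀ w, Adj P p w → w ∈ T → w = q ∨ w = r) ∧
      ∀ x ∈ T, ∃ α β : ℝ, x - p = α • (q - p) + β • (r - p) := by
  obtain ⟨y, z, hyz, hpy, hpz, hy, hz, -, hall, hcone, -, -⟩ := hTwo d P T p hP hvp hT hdT hp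
  rcases hall q hpq hq with rfl | rfl
  · exact ⟨z, hyz.symm, hpz, hz, hall, fun x hx => by
      obtain ⟨α, β, -, -, h⟩ := hcone x hx
      exact ⟨α, β, h⟩⟩
  · exact ⟨y, hyz, hpy, hy, fun w hw hwT => (hall w hw hwT).symm, fun x hx => by
      obtain ⟨α, β, -, -, h⟩ := hcone x hx
      exact ⟨β, α, by rw [h]; exact add_comm _ _⟩⟩

/-- Piece T34 -/
theorem t34 : S_FACES → S_TWO → S_POLY4 → S_T34 := by
  intro hF hTwo hPoly d P T c v y z hP hUV hEC hPC hc hT hdT hvy hvz hyz hv hy hz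
  obtain ⟨-, -, -, -, -, -, -, -, hends, -⟩ := hF (d + 1) P hP.1
  obtain ⟨hVv, hVy, hyv, -⟩ := hends v y hvy
  obtain ⟨-, hVz, hzv, -⟩ := hends v z hvz
  obtain ⟨r0, hr0, -, -, hall0, hcone0⟩ := other hTwo hP hT hdT v y hVv hvy hv hy
  have hr0z : z = r0 := by
    rcases hall0 z hvz hz with h | h
    · exact absurd h.symm hyz
    · exact h
  subst hr0z
  obtain ⟨y1, hy1v, hyy1, hy1T, hally, -⟩ := other hTwo hP hT hdT y v hVy hyv hy hv
  obtain ⟨z1, hz1v, hzz1, hz1T, hallz, -⟩ := other hTwo hP hT hdT z v hVz hzv hz hv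
  by_cases h1 : y1 = z
  · left
    rw [h1] at hyy1
    exact hEC y z hyy1
  by_cases h2 : z1 = y
  · left
    rw [h2] at hzz1
    rw [real_inner_comm]
    exact hEC z y hzz1
  have h3 : y1 = z1 := by
    by_contra h3
    have hV1 : Vx P y1 := (hends y y1 hyy1).2.1
    have hV2 : Vx P z1 := (hends z z1 hzz1).2.1
    have a1 : v ≠ y := hvy.1
    have a2 : v ≠ z := hvz.1
    have a3 : v ≠ y1 := hy1v.symm
    have a4 : v ≠ z1 := hz1v.symm
    have a5 : y ≠ z := hyz
    have a6 : y ≠ y1 := hyy1.1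
    have a7 : y ≠ z1 := fun h => h2 h.symm
    have a8 : z ≠ y1 := fun h => h1 h.symm
    have a9 : z ≠ z1 := hzz1.1
    have hx : ∀ i : Fin 5, Vx P ((![v, y, z, y1, z1] : Fin 5 → E (d + 1)) i) := by
      intro i
      fin_cases i
      · exact hVv
      · exact hVy
      · exact hVz
      · exact hV1
      · exact hV2
    have hxT : ∀ i : Fin 5, (![v, y, z, y1, z1] : Fin 5 → E (d + 1)) i ∈ T := by
      intro i
      fin_cases i
      · exact hv
      · exact hy
      · exact hz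
      · exact hy1T
      · exact hz1T
    have hne : ∀ i j : Fin 5, i < j → (![v, y, z, y1, z1] : Fin 5 → E (d + 1)) i ≠
        (![v, y, z, y1, z1] : Fin 5 → E (d + 1)) j := by
      intro i j hij
      fin_cases i <;> fin_cases j <;>
        first
        | exact absurd hij (by decide)
        | exact a1
        | exact a2
        | exact a3
        | exact a4
        | exact a5
        | exact a6
        | exact a7
        | exact a8
        | exact a9
        | exact h3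
    have h4 := hPoly (d + 1) T c ![v, y, z, y1, z1] hxT hdT.le (fun i => hUV _ (hx i))
      (fun i j hij => by
        rcases lt_or_gt_of_ne hij with h | h
        · exact hPC _ _ (hx i) (hx j) (hne i j h)
        · exact hPC _ _ (hx i) (hx j) (hne j i h).symm)
    linarith
  subst h3
  right
  obtain ⟨α, β, hαβ⟩ := hcone0 y1 hy1T
  have hV1 : Vx P y1 := (hends y y1 hyy1).2.1
  exact quad v y z y1 c α β (by linarith) (hUV v hVv) (hUV y hVy) (hUV z hVz) (hUV y1 hV1)
    (hEC v y hvy) (hEC v z hvz) (hEC y y1 hyy1) (hEC z y1 hzz1) hyz hy1v hαβ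

end Pool.Agent.T9h56.NK
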